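import Pool.Agent.P8H80.QN.Stm

/-! Project QN, package ORT: the first order condition. -/

set_option autoImplicit false

namespace Pool.Agent.P8H68.QN

open Pool.Agent.P8H80.QN

/-- an elementary inequality -/
theorem nonpos_of {a K : ℝ} (h : ∀ ε : ℝ, 0 < ε → ε ≤ 1 → a ≤ ε * K) : a ≤ 0 := by
  by_contra hc
  push Not at hc
  have hK : 0 < |K| + 1 := by positivity
  have h0 : 0 < min 1 (a / (2 * (|K| + 1))) := lt_min one_pos (by positivity)
  have h1 := h (min 1 (a / (2 * (|K| + 1)))) h0 (min_le_left _ _)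
  have h2 : min 1 (a / (2 * (|K| + 1))) * K ≤ a / 2 := by
    calc min 1 (a / (2 * (|K| + 1))) * K ≤ min 1 (a / (2 * (|K| + 1))) * (|K| + 1) :=
          mul_le_mul_of_nonneg_left (by linarith [le_abs_self K]) h0.le
      _ ≤ a / (2 * (|K| + 1)) * (|K| + 1) := mul_le_mul_of_nonneg_right (min_le_right _ _) hK.le
      _ = a / 2 := by field_simp
  linarith

theorem re_nonpos {n : ℕ} {B : E n →L[ℂ] E n} {x : E n} (hx : ‖x‖ = 1) (hxB : inner ℂ x (B x) = 0)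
    (h : ∀ z : E n, ‖B z‖ ^ 2 * ‖z‖ ^ 2 - ‖inner ℂ z (B z)‖ ^ 2 ≤ ‖B x‖ ^ 2 * ‖z‖ ^ 4)
    {w : E n} (hw : inner ℂ x w = 0) : (inner ℂ (B x) (B w)).re ≤ 0 := by
  have key : 2 * (inner ℂ (B x) (B w)).re ≤ 0 := by
    refine nonpos_of (K := ‖B x‖ ^ 2 * ‖w‖ ^ 2 +
      (‖inner ℂ w (B x)‖ + ‖inner ℂ x (B w)‖ + ‖inner ℂ w (B w)‖) ^ 2) fun ε hε hε1 => ?_
    have hn : ‖(ε : ℂ)‖ = ε := by
      rw [Complex.norm_real, Real.norm_of_nonneg hε.le]
    have e1 : ‖x + (ε : ℂ) • w‖ ^ 2 = 1 + ε ^ 2 * ‖w‖ ^ 2 := by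
      rw [norm_add_sq (𝕜 := ℂ), hx, inner_smul_right, hw, norm_smul, hn]
      simp
      ring
    have e2 : ‖B (x + (ε : ℂ) • w)‖ ^ 2 =
        ‖B x‖ ^ 2 + 2 * ε * (inner ℂ (B x) (B w)).re + ε ^ 2 * ‖B w‖ ^ 2 := by
      rw [map_add, map_smul, norm_add_sq (𝕜 := ℂ), inner_smul_right, norm_smul, hn]
      have : RCLike.re ((ε : ℂ) * inner ℂ (B x) (B w)) = ε * (inner ℂ (B x) (B w)).re := by
        show ((ε : ℂ) * inner ℂ (B x) (B w)).re = _
        rw [Complex.re_ofReal_mul]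
      rw [this]
      ring
    have e3 : ‖inner ℂ (x + (ε : ℂ) • w) (B (x + (ε : ℂ) • w))‖ ≤
        ε * (‖inner ℂ w (B x)‖ + ‖inner ℂ x (B w)‖ + ‖inner ℂ w (B w)‖) := by
      have e4 : inner ℂ (x + (ε : ℂ) • w) (B (x + (ε : ℂ) • w)) =
          (ε : ℂ) * inner ℂ w (B x) + (ε : ℂ) * inner ℂ x (B w) +
            (ε : ℂ) * ((ε : ℂ) * inner ℂ w (B w)) := by
        rw [map_add, map_smul, inner_add_left, inner_add_right, inner_add_right, hxB,
          inner_smul_left, inner_smul_right, inner_smul_left, inner_smul_right, Complex.conj_ofReal]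
        ring
      rw [e4]
      refine (norm_add_le _ _).trans ?_
      refine (add_le_add (norm_add_le _ _) le_rfl).trans ?_
      rw [norm_mul, norm_mul, norm_mul, norm_mul, hn]
      have : ε * (ε * ‖inner ℂ w (B w)‖) ≤ ε * ‖inner ℂ w (B w)‖ := by
        refine mul_le_mul_of_nonneg_left ?_ hε.le
        exact mul_le_of_le_one_left (norm_nonneg _) hε1
      linarith
    have h1 := h (x + (ε : ℂ) • w)
    have e5 : ‖x + (ε : ℂ) • w‖ ^ 4 = (1 + ε ^ 2 * ‖w‖ ^ 2) ^ 2 := by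
      rw [← e1]; ring
    rw [e2, e5, e1] at h1
    have e6 : ‖inner ℂ (x + (ε : ℂ) • w) (B (x + (ε : ℂ) • w))‖ ^ 2 ≤
        (ε * (‖inner ℂ w (B x)‖ + ‖inner ℂ x (B w)‖ + ‖inner ℂ w (B w)‖)) ^ 2 :=
      pow_le_pow_left₀ (norm_nonneg _) e3 2
    generalize ‖inner ℂ (x + (ε : ℂ) • w) (B (x + (ε : ℂ) • w))‖ ^ 2 = Z at h1 e6
    generalize (‖inner ℂ w (B x)‖ + ‖inner ℂ x (B w)‖ + ‖inner ℂ w (B w)‖) = c at e6 ⊢
    have hM0 : 0 ≤ ‖B x‖ ^ 2 := by positivity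
    have hB0 : 0 ≤ ‖B w‖ ^ 2 := by positivity
    have hW0 : 0 ≤ ‖w‖ ^ 2 := by positivity
    generalize ‖B x‖ ^ 2 = M at *
    generalize ‖B w‖ ^ 2 = β at *
    generalize ‖w‖ ^ 2 = W at *
    generalize (inner ℂ (B x) (B w)).re = b at *
    have hs : 1 ≤ 1 + ε ^ 2 * W := by nlinarith [mul_nonneg (sq_nonneg ε) hW0]
    have hs0 : 0 < ε * (1 + ε ^ 2 * W) := by positivity
    refine le_of_mul_le_mul_left ?_ hs0
    have g1 : 0 ≤ ε ^ 2 * β * (1 + ε ^ 2 * W) := by positivity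
    have g2 : 0 ≤ ε ^ 2 * c ^ 2 * (ε ^ 2 * W) := by positivity
    nlinarith
  linarith

/-- package ORT -/
theorem t_ORT : S_ORT := by
  intro n B x hx hxB h w hw
  have h1 : inner ℂ x ((starRingEnd ℂ) (inner ℂ (B x) (B w)) • w) = 0 := by
    rw [inner_smul_right, hw, mul_zero]
  have h2 := re_nonpos hx hxB h h1
  rw [map_smul, inner_smul_right, ← Complex.normSq_eq_conj_mul_self, Complex.ofReal_re] at h2
  exact Complex.normSq_eq_zero.1 (le_antisymm h2 (Complex.normSq_nonneg _))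

end Pool.Agent.P8H68.QN
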